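import Pool.Agent.H.MP_557517_an.A
set_option autoImplicit false

namespace Pool.Agent.Results.MP_557517_an.Yes
open Pool.Agent.H.MP_1a7c10_an Filter Topology

universe u

theorem result (p : ℝ) (hp0 : 0 < p) (hp1 : p < 1) (K : Type u) [MetricSpace K] [Countable K]
    [ProperSpace K] (o : K) (X : Type u) [AddCommGroup X] [Module ℝ X] (N : X → ℝ) (δ : K → X)
    (hF : IsFree ℝ p o X N δ) (C : Set X)
    (hC : ∀ w : ℕ → X, (∀ n, w n ∈ C) → ∃ x ∈ C, ∃ φ : ℕ → ℕ, StrictMono φ ∧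
      Tendsto (fun n => N (w (φ n) - x)) atTop (𝓝 0))
    (ε : ℝ) (hε : 0 < ε) :
    ∃ T : X →ₗ[ℝ] X, FiniteDimensional ℝ (LinearMap.range T) ∧ (∀ x, N (T x) ≤ N x) ∧
      ∀ x ∈ C, N (T x - x) ≤ ε := by
  have hB := hF.banach
  letI := hB.ng hp0
  haveI := hB.cs hp0
  have hn : ∀ x : X, ‖x‖ = N x ^ p := fun _ => rfl
  have hc : IsCompact C := by
    rw [isCompact_iff_isSeqCompact]
    intro w hw
    obtain ⟨x, hx, φ, hφ, ht⟩ := hC w hw
    refine ⟨x, hx, φ, hφ, ?_⟩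
    rw [tendsto_iff_norm_sub_tendsto_zero]
    have := ((Real.continuous_rpow_const hp0.le).tendsto 0).comp ht
    simpa [Real.zero_rpow hp0.ne', Function.comp_def, hn] using this
  obtain ⟨T, h1, h2, h3⟩ := Pool.Agent.H.MP_557517_an.map_main (hF.ctx hp0) hc
    (ε := ε ^ p) (by positivity)
  refine ⟨T, h1, fun x => ?_, fun x hx => ?_⟩
  · rw [← le1 hp0 (hB.nonneg _) (hB.nonneg _)]; exact h2 x
  · rw [← le1 hp0 (hB.nonneg _) hε.le]; exact h3 x hx

end Pool.Agent.Results.MP_557517_an.Yes
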